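import Mathlib
import Pool.Agent.H14.FreeBallLow

set_option autoImplicit false

namespace Pool.Agent.Results.MP_15e198_al.Exact

open Pool.Agent.H14.FreeBall

theorem result (r n : ℕ) (hr : 1 ≤ r) :
    IsGreatest {m : ℕ∞ | ∃ X : Set (FreeGroup (Fin r)), X.encard = m ∧ (∀ x ∈ X, x.norm ≤ n) ∧
        Function.Injective (FreeGroup.lift (fun x : X => (x : FreeGroup (Fin r))))}
      ((if n = 0 then 0 else if n % 2 = 1 then r * (2 * r - 1) ^ (n / 2)
        else (2 * r - 1) ^ (n / 2) : ℕ) : ℕ∞) := by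
  obtain ⟨r, rfl⟩ : ∃ s, r = s + 1 := ⟨r - 1, by omega⟩
  have h2 : 2 * (r + 1) - 1 = 2 * r + 1 := by omega
  rw [h2]
  have low : ∃ X : Finset (F (r + 1)), X.card = (if n = 0 then 0 else if n % 2 = 1 then
      (r + 1) * (2 * r + 1) ^ (n / 2) else (2 * r + 1) ^ (n / 2) : ℕ) ∧ (∀ x ∈ X, x.norm ≤ n) ∧
      Function.Injective (FreeGroup.lift (fun x : X => (x : F (r + 1)))) := by
    split_ifs with h0 h1
    · exact ⟨∅, rfl, by simp, fun a b _ => Subsingleton.elim a b⟩
    · cases r with
      | zero =>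
        obtain ⟨X, a, b, c⟩ := lower_one (r := 0 + 1)
        exact ⟨X, by simpa using a, fun x hx => (b x hx).trans (by omega), c⟩
      | succ r =>
        obtain ⟨X, a, b, c⟩ := lower_odd (r := r) (n / 2)
        exact ⟨X, a, fun x hx => (b x hx).trans (by omega), c⟩
    · cases r with
      | zero =>
        obtain ⟨X, a, b, c⟩ := lower_one (r := 0 + 1)
        exact ⟨X, by simpa using a, fun x hx => (b x hx).trans (by omega), c⟩
      | succ r =>
        obtain ⟨X, a, b, c⟩ := lower_even (r := r) (n / 2 - 1)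
        refine ⟨X, ?_, fun x hx => (b x hx).trans (by omega), c⟩
        rw [a, show n / 2 - 1 + 1 = n / 2 by omega]
  constructor
  · obtain ⟨X, a, b, c⟩ := low
    exact ⟨X, by rw [Set.encard_coe_eq_coe_finsetCard, a], b, c⟩
  · rintro m ⟨X, rfl, b, c⟩
    have hfin : X.Finite := by
      refine ((List.finite_length_le (L (r + 1)) n).image FreeGroup.mk).subset fun x hx => ?_
      exact ⟨x.toWord, b x hx, FreeGroup.mk_toWord⟩
    lift X to Finset (F (r + 1)) using hfin
    rw [Set.encard_coe_eq_coe_finsetCard, Nat.cast_le]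
    split_ifs with h0 h1
    · rw [Nat.le_zero, Finset.card_eq_zero, Finset.eq_empty_iff_forall_notMem]
      intro x hx
      have h3 : x = 1 := FreeGroup.norm_eq_zero.1 (by have := b x hx; omega)
      exact FreeGroup.of_ne_one (⟨x, hx⟩ : (X : Set (F (r + 1)))) (c (by simp [h3]))
    · exact upper_odd (n / 2) X (fun x hx => (b x hx).trans (by omega)) c
    · have := upper_even (n / 2 - 1) X (fun x hx => (b x hx).trans (by omega)) c
      rwa [show n / 2 - 1 + 1 = n / 2 by omega] at this

end Pool.Agent.Results.MP_15e198_al.Exact
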